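import Mathlib

/-!
# Grade, purity, minimal injective coresolutions, Auslander regularity

Definitions for problem `MP_357124_al`.  Right modules over a ring `A` are modules over `Aᵐᵒᵖ`.
-/

open CategoryTheory Abelian

universe u

namespace AusPure

/-- The category of right modules over `A`, realised as modules over the opposite ring. -/
abbrev RMod (A : Type u) [Ring A] := ModuleCat.{u} Aᵐᵒᵖ

/-- The regular right module `A_A`. -/
noncomputable abbrev regular (A : Type u) [Ring A] : RMod A := ModuleCat.of Aᵐᵒᵖ A

/-- The grade of a right `A`-module `M`: the infimum (in `ℕ ∪ {∞}`) of all `i ≥ 0` with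
`Ext^i_A(M, A) ≠ 0`. -/
noncomputable def grade (A : Type u) [Ring A] (M : RMod A) : ℕ∞ :=
  sInf {n : ℕ∞ | ∃ i : ℕ, n = (i : ℕ∞) ∧ Nontrivial (Ext.{u} M (regular A) i)}

/-- A right `A`-module is pure if each of its non-zero submodules has the same grade as the
whole module. -/
def IsPure (A : Type u) [Ring A] (M : RMod A) : Prop :=
  ∀ N : Submodule Aᵐᵒᵖ M, N ≠ ⊥ → grade A (ModuleCat.of Aᵐᵒᵖ N) = grade A M

/-- Exactness of `X → Y → Z` at `Y`. -/
def ExactAt {R : Type u} [Ring R] {X Y Z : ModuleCat.{u} R} (f : X ⟶ Y) (g : Y ⟶ Z) : Prop :=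
  Function.Exact f.hom g.hom

/-- The image of `f : X → Y` is an essential submodule of `Y`: it has non-zero intersection with
every non-zero submodule of `Y`. -/
def EssentialImage {R : Type u} [Ring R] {X Y : ModuleCat.{u} R} (f : X ⟶ Y) : Prop :=
  ∀ N : Submodule R Y, N ≠ ⊥ → N ⊓ LinearMap.range f.hom ≠ ⊥

/-- A minimal injective coresolution `0 → X → I⁰ → I¹ → ⋯` of a module `X`: an exact sequence
with all `Iⁿ` injective, such that the image of `X` in `I⁰` and the image of `Iⁿ` in `Iⁿ⁺¹` are
essential submodules. -/
structure MinInjCoresolution {R : Type u} [Ring R] (X : ModuleCat.{u} R) where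
  /-- the terms `Iⁿ` -/
  I : ℕ → ModuleCat.{u} R
  /-- the coaugmentation `X → I⁰` -/
  ε : X ⟶ I 0
  /-- the differentials -/
  d : ∀ n, I n ⟶ I (n + 1)
  injective : ∀ n, Injective (I n)
  mono : Mono ε
  exact_zero : ExactAt ε (d 0)
  exact_succ : ∀ n, ExactAt (d n) (d (n + 1))
  essential_zero : EssentialImage ε
  essential_succ : ∀ n, EssentialImage (d n)

/-- The minimal injective coresolution `C` of the regular right module is pure: it has length
some `d`, i.e. `Iⁱ = 0` exactly for `i > d`, and for `0 ≤ i ≤ d` the module `Iⁱ` is pure of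
grade `i`. -/
def IsPureCoresolution (A : Type u) [Ring A] (C : MinInjCoresolution (regular A)) : Prop :=
  ∃ d : ℕ, (∀ i ≤ d, Nontrivial (C.I i) ∧ IsPure A (C.I i) ∧ grade A (C.I i) = (i : ℕ∞)) ∧
    ∀ i > d, Subsingleton (C.I i)

/-- Finite global dimension: there is a uniform finite bound for the projective dimensions of all
right modules. -/
def FiniteGlobalDimension (A : Type u) [Ring A] : Prop :=
  ∃ d : ℕ, ∀ M : RMod A, HasProjectiveDimensionLE M d

/-- `A` has finite global dimension and a pure minimal injective coresolution, some term `Iⁱ` of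
which has projective dimension larger than `i` (so `A` is not Auslander regular). -/
def PureNotAuslanderRegular (A : Type u) [Ring A] : Prop :=
  FiniteGlobalDimension A ∧ ∃ C : MinInjCoresolution (regular A), IsPureCoresolution A C ∧
    ∃ i : ℕ, ¬ HasProjectiveDimensionLE (C.I i) i

/-- The incidence algebra of a finite poset `P` over the field `K`, as the subalgebra of the
matrix algebra consisting of all `P × P` matrices `f` with `f i j = 0` unless `i ≤ j`. -/
def incAlg (K : Type u) [Field K] (P : Type) [Fintype P] [DecidableEq P] [PartialOrder P] :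
    Subalgebra K (Matrix P P K) where
  carrier := {f | ∀ i j, ¬ i ≤ j → f i j = 0}
  mul_mem' := by
    intro f g hf hg i k h
    rw [Matrix.mul_apply]
    apply Finset.sum_eq_zero
    intro j _
    by_cases h1 : i ≤ j
    · rw [hg j k (fun h2 => h (h1.trans h2)), mul_zero]
    · rw [hf i j h1, zero_mul]
  add_mem' := by
    intro f g hf hg i j h
    rw [Matrix.add_apply, hf i j h, hg i j h, add_zero]
  algebraMap_mem' := by
    intro r i j h
    have : i ≠ j := fun e => h e.le
    rw [Matrix.algebraMap_matrix_apply, if_neg this]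

end AusPure
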