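import Mathlib
import Pool.Agent.Lib_helper73.AusPure.Defs

open MulOpposite

universe u

set_option linter.unusedSectionVars false
set_option linter.style.haveILetI false

namespace AusPure

variable (K : Type u) [Field K] (P : Type) [Fintype P] [DecidableEq P] [PartialOrder P]

variable {K P}

/-- The ring whose left modules are the right modules over the incidence algebra. -/
abbrev RR (K : Type u) [Field K] (P : Type) [Fintype P] [DecidableEq P] [PartialOrder P] : Type u :=
  (incAlg K P)ᵐᵒᵖ

/-- coefficient of an element of `RR` -/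
def cf (r : RR K P) (i j : P) : K := (unop r).1 i j

lemma cf_eq_zero (r : RR K P) {i j : P} (h : ¬ i ≤ j) : cf r i j = 0 := (unop r).2 i j h

lemma cf_add (r s : RR K P) (i j : P) : cf (r + s) i j = cf r i j + cf s i j := rfl

lemma cf_smul (k : K) (r : RR K P) (i j : P) : cf (k • r) i j = k * cf r i j := rfl

lemma cf_zero (i j : P) : cf (0 : RR K P) i j = 0 := rfl

lemma cf_one (i j : P) : cf (1 : RR K P) i j = if i = j then 1 else 0 := Matrix.one_apply

lemma cf_mul (r s : RR K P) (i k : P) : cf (r * s) i k = ∑ j, cf s i j * cf r j k := rfl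

lemma cf_sum {ι : Type*} (s : Finset ι) (f : ι → RR K P) (i j : P) :
    cf (∑ w ∈ s, f w) i j = ∑ w ∈ s, cf (f w) i j :=
  map_sum (AddMonoidHom.mk' (fun r : RR K P => cf r i j) (fun r t => cf_add r t i j)) f s

lemma RR_ext {r s : RR K P} (h : ∀ i j, cf r i j = cf s i j) : r = s := by
  apply unop_injective
  apply Subtype.ext
  ext i j
  exact h i j

variable [DecidableLE P]

/-- matrix unit -/
def E (i j : P) : RR K P :=
  if h : i ≤ j then op ⟨Matrix.single i j 1, by
    intro a b hab
    rw [Matrix.single_apply]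
    rw [if_neg]
    rintro ⟨rfl, rfl⟩
    exact hab h⟩ else 0

lemma cf_E (i j a b : P) : cf (E i j : RR K P) a b = if i ≤ j ∧ a = i ∧ b = j then 1 else 0 := by
  unfold E
  by_cases h : i ≤ j
  · rw [dif_pos h]
    change (Matrix.single i j (1 : K)) a b = _
    rw [Matrix.single_apply]
    by_cases h1 : i = a ∧ j = b
    · rw [if_pos h1, if_pos ⟨h, h1.1.symm, h1.2.symm⟩]
    · rw [if_neg h1, if_neg]
      rintro ⟨_, rfl, rfl⟩
      exact h1 ⟨rfl, rfl⟩
  · rw [dif_neg h, cf_zero, if_neg (fun hh => h hh.1)]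

lemma E_mul_E {i j k : P} (h1 : i ≤ j) (h2 : j ≤ k) : (E j k : RR K P) * E i j = E i k := by
  apply RR_ext
  intro a b
  rw [cf_mul, Finset.sum_eq_single j]
  · simp only [cf_E]
    by_cases ha : a = i
    · by_cases hb : b = k
      · simp [ha, hb, h1, h2, h1.trans h2]
      · simp [hb]
    · simp [ha]
  · intro c _ hc
    simp [cf_E, hc]
  · intro h; exact absurd (Finset.mem_univ _) h

lemma E_mul_E_ne {i j j' k : P} (h : j ≠ j') : (E j' k : RR K P) * E i j = 0 := by
  apply RR_ext
  intro a b
  rw [cf_mul, cf_zero]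
  apply Finset.sum_eq_zero
  intro c _
  rw [cf_E, cf_E]
  by_cases hc : c = j
  · rw [if_neg (fun (hh : j' ≤ k ∧ c = j' ∧ b = k) => h (hc.symm.trans hh.2.1)), mul_zero]
  · rw [if_neg (fun (hh : i ≤ j ∧ a = i ∧ c = j) => hc hh.2.2), zero_mul]

lemma E_mul {u v : P} (h : u ≤ v) (r : RR K P) :
    (E u v : RR K P) * r = ∑ w, cf r w u • E w v := by
  apply RR_ext
  intro a b
  rw [cf_sum, cf_mul, Finset.sum_eq_single u, Finset.sum_eq_single a]
  · rw [cf_smul, cf_E, cf_E]
    by_cases hb : b = v
    · by_cases ha : a ≤ v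
      · simp [hb, h, ha]
      · have : ¬ a ≤ u := fun hh => ha (hh.trans h)
        simp [cf_eq_zero r this]
    · simp [hb]
  · intro c _ hc
    rw [cf_smul, cf_E, if_neg (fun hh => hc hh.2.1.symm), mul_zero]
  · intro h; exact absurd (Finset.mem_univ _) h
  · intro c _ hc
    rw [cf_E, if_neg (fun hh => hc hh.2.1), mul_zero]
  · intro h; exact absurd (Finset.mem_univ _) h

lemma sum_E : ∑ v, (E v v : RR K P) = 1 := by
  apply RR_ext
  intro a b
  rw [cf_sum, cf_one]
  by_cases h : a = b
  · rw [if_pos h, Finset.sum_eq_single a]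
    · rw [cf_E, if_pos ⟨le_rfl, rfl, h.symm⟩]
    · intro c _ hc
      rw [cf_E, if_neg (fun hh => hc hh.2.1.symm)]
    · intro h; exact absurd (Finset.mem_univ _) h
  · rw [if_neg h]
    apply Finset.sum_eq_zero
    intro c _
    rw [cf_E, if_neg]
    rintro ⟨_, rfl, rfl⟩
    exact h rfl

/-! ### coinduced modules -/

section CI

variable (W : Type u) [AddCommGroup W] [Module K W] (v : P)

/-- Functions supported on the elements below `v`. -/
def ciSub : Submodule K (P → W) where
  carrier := {m | ∀ u, ¬ u ≤ v → m u = 0}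
  add_mem' := by
    intro a b ha hb u h
    rw [Pi.add_apply, ha u h, hb u h, add_zero]
  zero_mem' := fun _ _ => rfl
  smul_mem' := by
    intro c x hx u h
    rw [Pi.smul_apply, hx u h, smul_zero]

/-- The coinduced module. -/
def CI (K : Type u) [Field K] (W : Type u) [AddCommGroup W] [Module K W] {P : Type} [PartialOrder P]
    (v : P) : Type u := ciSub (K := K) W v

instance : AddCommGroup (CI K W v) := inferInstanceAs (AddCommGroup (ciSub (K := K) W v))

instance : Module K (CI K W v) := inferInstanceAs (Module K (ciSub (K := K) W v))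

variable {W v}

/-- coordinates -/
def CI.c (m : CI K W v) (u : P) : W := m.1 u

lemma CI.c_eq_zero (m : CI K W v) {u : P} (h : ¬ u ≤ v) : m.c u = 0 := m.2 u h

lemma CI.c_add (m n : CI K W v) (u : P) : (m + n).c u = m.c u + n.c u := rfl

lemma CI.c_zero (u : P) : (0 : CI K W v).c u = 0 := rfl

lemma CI.c_smul (k : K) (m : CI K W v) (u : P) : (k • m).c u = k • m.c u := rfl

@[ext] lemma CI.ext {m n : CI K W v} (h : ∀ u, m.c u = n.c u) : m = n := Subtype.ext (funext h)

lemma CI.ext' {m n : CI K W v} (h : ∀ u, u ≤ v → m.c u = n.c u) : m = n := by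
  ext u
  by_cases hu : u ≤ v
  · exact h u hu
  · rw [m.c_eq_zero hu, n.c_eq_zero hu]

/-- constructor -/
def CI.mk (f : P → W) : CI K W v := ⟨fun u => if u ≤ v then f u else 0, fun _ h => if_neg h⟩

lemma CI.c_mk (f : P → W) (u : P) : (CI.mk f : CI K W v).c u = if u ≤ v then f u else 0 := rfl

lemma CI.c_mk_of_le (f : P → W) {u : P} (h : u ≤ v) : (CI.mk f : CI K W v).c u = f u := if_pos h

instance : SMul (RR K P) (CI K W v) := ⟨fun r m => CI.mk (fun u => ∑ w, cf r w u • m.c w)⟩

lemma CI.c_rsmul (r : RR K P) (m : CI K W v) (u : P) :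
    (r • m).c u = if u ≤ v then ∑ w, cf r w u • m.c w else 0 := rfl

lemma CI.c_rsmul_of_le (r : RR K P) (m : CI K W v) {u : P} (h : u ≤ v) :
    (r • m).c u = ∑ w, cf r w u • m.c w := if_pos h

instance : Module (RR K P) (CI K W v) where
  one_smul m := by
    apply CI.ext'
    intro u hu
    rw [CI.c_rsmul_of_le _ _ hu, Finset.sum_eq_single u]
    · rw [cf_one, if_pos rfl, one_smul]
    · intro w _ hw
      rw [cf_one, if_neg hw, zero_smul]
    · intro h; exact absurd (Finset.mem_univ _) h
  mul_smul r s m := by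
    apply CI.ext'
    intro u hu
    rw [CI.c_rsmul_of_le _ _ hu, CI.c_rsmul_of_le _ _ hu]
    have : ∀ w, cf r w u • (s • m).c w = ∑ x, (cf s x w * cf r w u) • m.c x := by
      intro w
      by_cases hw : w ≤ v
      · rw [CI.c_rsmul_of_le _ _ hw, Finset.smul_sum]
        apply Finset.sum_congr rfl
        intro x _
        rw [smul_smul, mul_comm]
      · have : ¬ w ≤ u := fun h => hw (h.trans hu)
        rw [cf_eq_zero r this]
        simp
    rw [Finset.sum_congr rfl (fun w _ => this w), Finset.sum_comm]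
    apply Finset.sum_congr rfl
    intro w _
    rw [cf_mul, Finset.sum_smul]
  smul_zero r := by
    apply CI.ext'
    intro u hu
    rw [CI.c_rsmul_of_le _ _ hu, CI.c_zero]
    apply Finset.sum_eq_zero
    intro w _
    rw [CI.c_zero, smul_zero]
  smul_add r m n := by
    apply CI.ext'
    intro u hu
    rw [CI.c_add, CI.c_rsmul_of_le _ _ hu, CI.c_rsmul_of_le _ _ hu, CI.c_rsmul_of_le _ _ hu,
      ← Finset.sum_add_distrib]
    apply Finset.sum_congr rfl
    intro w _
    rw [CI.c_add, smul_add]
  add_smul r s m := by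
    apply CI.ext'
    intro u hu
    rw [CI.c_add, CI.c_rsmul_of_le _ _ hu, CI.c_rsmul_of_le _ _ hu, CI.c_rsmul_of_le _ _ hu,
      ← Finset.sum_add_distrib]
    apply Finset.sum_congr rfl
    intro w _
    rw [cf_add, add_smul]
  zero_smul m := by
    apply CI.ext'
    intro u hu
    rw [CI.c_rsmul_of_le _ _ hu, CI.c_zero]
    apply Finset.sum_eq_zero
    intro w _
    rw [cf_zero, zero_smul]

instance : IsScalarTower K (RR K P) (CI K W v) := ⟨fun k r m => by
  apply CI.ext'
  intro u hu
  rw [CI.c_smul, CI.c_rsmul_of_le _ _ hu, CI.c_rsmul_of_le _ _ hu, Finset.smul_sum]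
  apply Finset.sum_congr rfl
  intro w _
  rw [cf_smul, smul_smul]⟩

/-- action of matrix units -/
lemma CI.c_E_smul (i j : P) (h : i ≤ j) (m : CI K W v) (u : P) :
    ((E i j : RR K P) • m).c u = if u = j ∧ j ≤ v then m.c i else 0 := by
  rw [CI.c_rsmul]
  by_cases hu : u ≤ v
  · rw [if_pos hu, Finset.sum_eq_single i]
    · rw [cf_E]
      by_cases huj : u = j
      · subst huj
        rw [if_pos ⟨h, rfl, rfl⟩, if_pos ⟨rfl, hu⟩, one_smul]
      · rw [if_neg (fun hh => huj hh.2.2), if_neg (fun hh => huj hh.1), zero_smul]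
    · intro w _ hw
      rw [cf_E, if_neg (fun hh => hw hh.2.1), zero_smul]
    · intro h; exact absurd (Finset.mem_univ _) h
  · rw [if_neg hu, if_neg]
    rintro ⟨rfl, h2⟩
    exact hu h2

variable {M : Type u} [AddCommGroup M] [Module K M] [Module (RR K P) M]
  [IsScalarTower K (RR K P) M]

/-- The homomorphism into a coinduced module given by a `K`-linear map. -/
def toCI (v : P) (l : M →ₗ[K] W) : M →ₗ[RR K P] CI K W v where
  toFun m := CI.mk (fun u => l ((E u v : RR K P) • m))
  map_add' m n := by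
    apply CI.ext'
    intro u hu
    rw [CI.c_add, CI.c_mk_of_le _ hu, CI.c_mk_of_le _ hu, CI.c_mk_of_le _ hu, smul_add, map_add]
  map_smul' r m := by
    apply CI.ext'
    intro u hu
    rw [CI.c_mk_of_le _ hu, RingHom.id_apply, CI.c_rsmul_of_le _ _ hu, ← mul_smul, E_mul hu,
      Finset.sum_smul, map_sum]
    apply Finset.sum_congr rfl
    intro w _
    rw [smul_assoc, map_smul]
    by_cases hw : w ≤ v
    · rw [CI.c_mk_of_le _ hw]
    · have : ¬ w ≤ u := fun h => hw (h.trans hu)
      rw [cf_eq_zero r this, zero_smul, zero_smul]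

lemma toCI_c (l : M →ₗ[K] W) (m : M) {u : P} (hu : u ≤ v) :
    (toCI v l m).c u = l ((E u v : RR K P) • m) := if_pos hu

/-- coordinate as a linear map -/
def CI.coord (v u : P) : CI K W v →ₗ[K] W where
  toFun m := m.c u
  map_add' _ _ := rfl
  map_smul' _ _ := rfl

lemma CI.coord_apply (v u : P) (m : CI K W v) : CI.coord v u m = m.c u := rfl

lemma eq_toCI (f : M →ₗ[RR K P] CI K W v) :
    f = toCI v ((CI.coord v v) ∘ₗ (f.restrictScalars K)) := by
  ext m u
  by_cases hu : u ≤ v
  · rw [toCI_c _ _ hu]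
    rw [LinearMap.comp_apply, LinearMap.coe_restrictScalars, map_smul, CI.coord_apply,
      CI.c_E_smul _ _ hu, if_pos ⟨rfl, le_rfl⟩]
  · rw [CI.c_eq_zero _ hu, CI.c_eq_zero _ hu]

end CI

instance CI_injective (W : Type u) [AddCommGroup W] [Module K W] (v : P) :
    Module.Injective (RR K P) (CI K W v) where
  out X Y _ _ _ _ f hf g := by
    letI : Module K X := Module.compHom X (algebraMap K (RR K P))
    letI : Module K Y := Module.compHom Y (algebraMap K (RR K P))
    haveI : IsScalarTower K (RR K P) X := ⟨fun k r x => by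
      rw [Algebra.smul_def, mul_smul]; rfl⟩
    haveI : IsScalarTower K (RR K P) Y := ⟨fun k r x => by
      rw [Algebra.smul_def, mul_smul]; rfl⟩
    obtain ⟨s, hs⟩ := (f.restrictScalars K).exists_leftInverse_of_injective
      (LinearMap.ker_eq_bot.2 hf)
    refine ⟨toCI v (((CI.coord v v) ∘ₗ (g.restrictScalars K)) ∘ₗ s), fun x => ?_⟩
    apply CI.ext'
    intro u hu
    rw [toCI_c _ _ hu]
    have h1 : s ((E u v : RR K P) • f x) = (E u v : RR K P) • x := by
      have := LinearMap.congr_fun hs ((E u v : RR K P) • x)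
      simpa using this
    rw [LinearMap.comp_apply, h1]
    have h2 := LinearMap.congr_fun (eq_toCI g) x
    rw [h2, toCI_c _ _ hu]

end AusPure
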