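import Mathlib
import Pool.Agent.Lib_helper73.AusPure.Coind

open CategoryTheory Abelian MulOpposite

universe u

set_option linter.unusedSectionVars false
set_option linter.style.haveILetI false

namespace AusPure

variable {K : Type u} [Field K] {P : Type} [Fintype P] [DecidableEq P] [PartialOrder P]
  [DecidableLE P]

theorem injdim_aux (rk : P → ℕ) (N : ℕ) (hrk : ∀ u v : P, u < v → rk v < rk u) (n : ℕ) :
    ∀ M : ModuleCat.{u} (RR K P),
      (∀ v : P, rk v + n < N → ∀ m : M, (E v v : RR K P) • m = 0) →
      (∀ v, rk v < N) →
      HasInjectiveDimensionLT M n := by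
  induction n with
  | zero =>
    intro M hM hN
    apply Limits.IsZero.hasInjectiveDimensionLT_zero
    rw [ModuleCat.isZero_iff_subsingleton]
    refine ⟨fun a b => ?_⟩
    have h0 : ∀ m : M, m = 0 := by
      intro m
      have h1 : (1 : RR K P) • m = 0 := by
        rw [← sum_E, Finset.sum_smul]
        exact Finset.sum_eq_zero (fun v _ => hM v (by simpa using hN v) m)
      rwa [one_smul] at h1
    rw [h0 a, h0 b]
  | succ n ih =>
    intro M hM hN
    letI : Module K M := Module.compHom M (algebraMap K (RR K P))
    haveI : IsScalarTower K (RR K P) M := ⟨fun k r x => by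
      rw [Algebra.smul_def, mul_smul]; rfl⟩
    let l : ∀ v : P, M →ₗ[K] M := fun v => Algebra.lsmul K K M (E v v : RR K P)
    have hl : ∀ v m, l v m = (E v v : RR K P) • m := fun v m => rfl
    let W : P → Submodule K M := fun v => LinearMap.range (l v)
    have hW : ∀ v (m : W v), (E v v : RR K P) • (m : M) = m := by
      rintro v ⟨m, x, rfl⟩
      change (E v v : RR K P) • ((E v v : RR K P) • x) = (E v v : RR K P) • x
      rw [← mul_smul, E_mul_E le_rfl le_rfl]
    let J := ∀ v : P, CI K (W v) v
    let i : M →ₗ[RR K P] J := LinearMap.pi (fun v => toCI v (l v).rangeRestrict)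
    have hi : ∀ (m : M) (v u : P), u ≤ v → (((i m) v).c u : M) = (E u v : RR K P) • m := by
      intro m v u huv
      change (((toCI v (l v).rangeRestrict m).c u : W v) : M) = _
      rw [toCI_c _ _ huv]
      change (E v v : RR K P) • ((E u v : RR K P) • m) = _
      rw [← mul_smul, E_mul_E huv le_rfl]
    have hinj : Function.Injective i := by
      rw [injective_iff_map_eq_zero]
      intro m hm
      have h1 : (1 : RR K P) • m = 0 := by
        rw [← sum_E, Finset.sum_smul]
        refine Finset.sum_eq_zero (fun v _ => ?_)
        rw [← hi m v v le_rfl, hm]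
        rfl
      rwa [one_smul] at h1
    let Q := J ⧸ LinearMap.range i
    let q : J →ₗ[RR K P] Q := (LinearMap.range i).mkQ
    let S : ShortComplex (ModuleCat.{u} (RR K P)) :=
      ShortComplex.mk (ModuleCat.ofHom i) (ModuleCat.ofHom q) (by
        ext m
        change q (i m) = 0
        rw [Submodule.mkQ_apply, Submodule.Quotient.mk_eq_zero]
        exact ⟨m, rfl⟩)
    have hS : S.ShortExact := ModuleCat.shortComplex_shortExact _ (by
        intro y
        change q y = 0 ↔ y ∈ Set.range i
        rw [Submodule.mkQ_apply, Submodule.Quotient.mk_eq_zero]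
        rfl) hinj (Submodule.mkQ_surjective _)
    have hJ : Injective S.X₂ :=
      (Module.injective_iff_injective_object (RR K P) J).1 inferInstance
    have hJ1 : HasInjectiveDimensionLT S.X₂ (n + 1) :=
      hasInjectiveDimensionLT_of_ge _ 1 (n + 1) (by omega)
    have hQ : HasInjectiveDimensionLT S.X₃ n := by
      refine ih S.X₃ (fun v hv x => ?_) hN
      obtain ⟨j, rfl⟩ := Submodule.mkQ_surjective _ x
      change (E v v : RR K P) • q j = 0
      rw [← map_smul, Submodule.mkQ_apply, Submodule.Quotient.mk_eq_zero]
      refine ⟨((j v).c v : M), ?_⟩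
      funext w
      apply CI.ext'
      intro u hu
      apply Subtype.ext
      rw [hi _ _ _ hu]
      change _ = ((((E v v : RR K P) • (j w)).c u : W w) : M)
      rw [CI.c_E_smul _ _ le_rfl]
      by_cases huv : u = v
      · subst huv
        rw [if_pos ⟨rfl, hu⟩]
        by_cases hwu : w = u
        · subst hwu
          exact hW _ _
        · have hlt : u < w := lt_of_le_of_ne hu (fun h => hwu h.symm)
          have hzero : ∀ m : M, (E w w : RR K P) • m = 0 :=
            hM w (by have := hrk u w hlt; omega)
          rw [← hW w, hzero, ← E_mul_E hu le_rfl, mul_smul, hzero]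
      · rw [if_neg (fun h => huv h.1)]
        rw [← hW v, ← mul_smul, E_mul_E_ne (fun h => huv h.symm), zero_smul]
        rfl
    exact hS.hasInjectiveDimensionLT_X₁ n hQ hJ1

theorem finiteGlobalDimension_incAlg (rk : P → ℕ) (N : ℕ)
    (hrk : ∀ u v : P, u < v → rk v < rk u) (hN : ∀ v, rk v < N) :
    FiniteGlobalDimension (incAlg K P) := by
  refine ⟨N, fun M => ?_⟩
  apply HasProjectiveDimensionLT.mk
  intro i hi Y e
  have : HasInjectiveDimensionLT Y N := injdim_aux rk N hrk N Y (fun v hv => by omega) hN
  exact Ext.eq_zero_of_hasInjectiveDimensionLT e N (by omega)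

end AusPure
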