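import Mathlib
import Pool.Agent.Lib_helper73.AusPure.Defs

open CategoryTheory Abelian

universe u

namespace AusPure

variable {R : Type u} [Ring R] {X : ModuleCat.{u} R} (C : MinInjCoresolution X)

namespace MinInjCoresolution

lemma ε_injective : Function.Injective C.ε.hom := (ModuleCat.mono_iff_injective _).1 C.mono

/-- cosyzygies -/
noncomputable def Z : ℕ → ModuleCat.{u} R
  | 0 => X
  | (n + 1) => ModuleCat.of R (LinearMap.ker (C.d (n + 1)).hom)

/-- inclusion of cosyzygies -/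
noncomputable def ι : ∀ n, C.Z n ⟶ C.I n
  | 0 => C.ε
  | (n + 1) => ModuleCat.ofHom (LinearMap.ker (C.d (n + 1)).hom).subtype

lemma d_comp_d (n : ℕ) (x : C.I n) : (C.d (n + 1)).hom ((C.d n).hom x) = 0 :=
  ((C.exact_succ n) ((C.d n).hom x)).2 ⟨x, rfl⟩

/-- projection to the next cosyzygy -/
noncomputable def π (n : ℕ) : C.I n ⟶ C.Z (n + 1) :=
  ModuleCat.ofHom (LinearMap.codRestrict (LinearMap.ker (C.d (n + 1)).hom) (C.d n).hom
    (fun x => by rw [LinearMap.mem_ker]; exact C.d_comp_d n x))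

lemma ι_injective (n : ℕ) : Function.Injective (C.ι n).hom := by
  cases n with
  | zero => exact C.ε_injective
  | succ n => exact Subtype.val_injective

lemma π_surjective (n : ℕ) : Function.Surjective (C.π n).hom := by
  rintro ⟨x, hx⟩
  rw [LinearMap.mem_ker] at hx
  obtain ⟨y, hy⟩ := ((C.exact_succ n) x).1 hx
  exact ⟨y, Subtype.ext hy⟩

lemma π_ι (n : ℕ) : C.π n ≫ C.ι (n + 1) = C.d n := by
  ext x; rfl

lemma exact_ι_π (n : ℕ) : Function.Exact (C.ι n).hom (C.π n).hom := by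
  intro y
  have h1 : (C.π n).hom y = 0 ↔ (C.d n).hom y = 0 := by
    constructor
    · intro h; exact congrArg Subtype.val h
    · intro h; exact Subtype.ext h
  rw [h1]
  cases n with
  | zero => exact C.exact_zero y
  | succ n =>
    constructor
    · intro h; exact ⟨⟨y, h⟩, rfl⟩
    · rintro ⟨z, rfl⟩; exact z.2

lemma zero_aux (n : ℕ) : C.ι n ≫ C.π n = 0 := by
  ext x
  exact ((C.exact_ι_π n) ((C.ι n).hom x)).2 ⟨x, rfl⟩

/-- the short exact sequences `0 → Zⁿ → Iⁿ → Zⁿ⁺¹ → 0` -/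
noncomputable def S (n : ℕ) : ShortComplex (ModuleCat.{u} R) :=
  ShortComplex.mk (C.ι n) (C.π n) (C.zero_aux n)

lemma shortExact (n : ℕ) : (C.S n).ShortExact :=
  ModuleCat.shortComplex_shortExact _ (C.exact_ι_π n) (C.ι_injective n) (C.π_surjective n)

lemma ext_eq_zero (k : ℕ) : ∀ (n : ℕ) (Y : ModuleCat.{u} R),
    (∀ f : Y ⟶ C.I (n + k), f = 0) → ∀ e : Ext.{u} Y (C.Z n) k, e = 0 := by
  induction k with
  | zero =>
    intro n Y h e
    obtain ⟨f, rfl⟩ := Ext.homEquiv₀.symm.surjective e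
    have h1 : f ≫ C.ι n = 0 := h _
    have : Mono (C.ι n) := (ModuleCat.mono_iff_injective _).2 (C.ι_injective n)
    have h2 : f = 0 := by
      rw [← cancel_mono (C.ι n), h1, Limits.zero_comp]
    rw [h2]
    simp
  | succ k ih =>
    intro n Y h e
    have : Injective (C.S n).X₂ := C.injective n
    obtain ⟨x, hx⟩ := Ext.covariant_sequence_exact₁ Y (C.shortExact n) e
      (Ext.eq_zero_of_injective _) rfl
    rw [← hx]
    have hx0 : x = 0 := ih (n + 1) Y (fun f => by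
      have e1 : n + 1 + k = n + (k + 1) := by omega
      revert f
      rw [e1]
      exact h) x
    rw [hx0, Ext.zero_comp]
    rfl

lemma ext_nontrivial (k : ℕ) : ∀ (n : ℕ) (Y : ModuleCat.{u} R) (f : Y ⟶ C.I (n + k + 1)),
    f ≫ C.d (n + k + 1) = 0 → (∀ φ : Y ⟶ C.I (n + k), φ ≫ C.d (n + k) ≠ f) →
    ∃ e : Ext.{u} Y (C.Z n) (k + 1), e ≠ 0 := by
  induction k with
  | zero =>
    intro n Y f hf hφ
    simp only [Nat.add_zero] at f hf hφ
    let g : Y ⟶ C.Z (n + 1) := ModuleCat.ofHom (LinearMap.codRestrict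
      (LinearMap.ker (C.d (n + 1)).hom) f.hom (fun x => by
        rw [LinearMap.mem_ker]
        have := congrArg (fun h => h.hom x) hf
        simpa using this))
    have hg : g ≫ C.ι (n + 1) = f := by ext x; rfl
    refine ⟨(Ext.mk₀ g).comp (C.shortExact n).extClass (zero_add 1), fun h0 => ?_⟩
    obtain ⟨x₂, hx₂⟩ := Ext.covariant_sequence_exact₃ Y (C.shortExact n) (Ext.mk₀ g) (zero_add 1) h0
    obtain ⟨φ, rfl⟩ := Ext.homEquiv₀.symm.surjective x₂
    let φ' : Y ⟶ C.I n := φ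
    apply hφ φ'
    have h3 : Ext.mk₀ (φ ≫ (C.S n).g) = Ext.mk₀ g := by
      rw [← Ext.mk₀_comp_mk₀]
      exact hx₂
    have h4 : φ ≫ (C.S n).g = g := Ext.homEquiv₀.symm.injective h3
    have h5 : φ' ≫ C.π n = g := h4
    rw [← C.π_ι n, ← Category.assoc, h5, hg]
  | succ k ih =>
    intro n Y f hf hφ
    have e1 : n + 1 + k = n + (k + 1) := by omega
    obtain ⟨e, he⟩ : ∃ e : Ext.{u} Y (C.Z (n + 1)) (k + 1), e ≠ 0 := by
      have := ih (n + 1) Y
      rw [e1] at this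
      exact this f hf hφ
    refine ⟨e.comp (C.shortExact n).extClass rfl, fun h0 => he ?_⟩
    have : Injective (C.S n).X₂ := C.injective n
    obtain ⟨x₂, hx₂⟩ := Ext.covariant_sequence_exact₃ Y (C.shortExact n) e rfl h0
    rw [← hx₂, Ext.eq_zero_of_injective x₂, Ext.zero_comp]
    rfl

lemma ext_eq_zero' (k : ℕ) (Y : ModuleCat.{u} R) (h : ∀ f : Y ⟶ C.I k, f = 0)
    (e : Ext.{u} Y X k) : e = 0 := by
  exact C.ext_eq_zero k 0 Y (fun f => by revert f; rw [Nat.zero_add]; exact h) e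

lemma ext_nontrivial' (k : ℕ) (Y : ModuleCat.{u} R) (f : Y ⟶ C.I (k + 1))
    (hf : f ≫ C.d (k + 1) = 0) (hφ : ∀ φ : Y ⟶ C.I k, φ ≫ C.d k ≠ f) :
    ∃ e : Ext.{u} Y X (k + 1), e ≠ 0 := by
  have h1 := C.ext_nontrivial k 0 Y
  rw [Nat.zero_add] at h1
  exact h1 f hf hφ

lemma ext_nontrivial_zero (Y : ModuleCat.{u} R) (f : Y ⟶ C.I 0) (hf : f ≫ C.d 0 = 0)
    (hf0 : f ≠ 0) : ∃ e : Ext.{u} Y X 0, e ≠ 0 := by
  have hmem : ∀ y : Y, ∃ x : X, C.ε.hom x = f.hom y := by
    intro y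
    have h1 : (C.d 0).hom (f.hom y) = 0 := by
      have := congrArg (fun h => h.hom y) hf
      simpa using this
    exact ((C.exact_zero) _).1 h1
  let e := LinearEquiv.ofInjective C.ε.hom C.ε_injective
  let g : Y ⟶ X := ModuleCat.ofHom (e.symm.toLinearMap ∘ₗ
    LinearMap.codRestrict (LinearMap.range C.ε.hom) f.hom (fun y => by
      obtain ⟨x, hx⟩ := hmem y
      exact ⟨x, hx⟩))
  refine ⟨Ext.mk₀ g, fun h0 => hf0 ?_⟩
  have hg0 : g = 0 := by
    rwa [Ext.mk₀_eq_zero_iff] at h0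
  ext y
  have h2 : C.ε.hom (g.hom y) = f.hom y := by
    have : e (g.hom y) = ⟨f.hom y, by obtain ⟨x, hx⟩ := hmem y; exact ⟨x, hx⟩⟩ := by
      simp only [g, ModuleCat.hom_ofHom, LinearMap.comp_apply, LinearEquiv.coe_coe,
        LinearEquiv.apply_symm_apply]
      rfl
    have := congrArg Subtype.val this
    simpa [e] using this
  rw [← h2, hg0]
  simp

end MinInjCoresolution

end AusPure
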