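import Mathlib

/-!
The poset with `16` elements and the combinatorial data of the coresolution.
-/

namespace AusPure

/-- up-sets of the poset, as bit masks -/
def dn : Fin 16 → ℕ :=
  ![1, 3, 5, 11, 19, 37, 69, 175, 335, 567, 1111, 2751, 5471, 8687, 18039, 65535]

/-- The 16-element set underlying the poset. -/
def Q16 : Type := Fin 16

instance : Fintype Q16 := inferInstanceAs (Fintype (Fin 16))
instance : DecidableEq Q16 := inferInstanceAs (DecidableEq (Fin 16))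
instance (n : ℕ) [NeZero 16] : OfNat Q16 n := inferInstanceAs (OfNat (Fin 16) n)
instance : LE Q16 := ⟨fun i j => (dn i).testBit (Fin.val j) = true⟩
instance : DecidableLE Q16 := fun i j => inferInstanceAs (Decidable ((dn i).testBit (Fin.val j) = true))

set_option maxRecDepth 100000 in
instance : PartialOrder Q16 where
  le_refl := by
    have : ∀ i : Fin 16, (dn i).testBit (Fin.val i) = true := by decide
    exact this
  le_trans := by
    have : ∀ i j : Fin 16, (dn i).testBit (Fin.val j) = true → ∀ k : Fin 16,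
      (dn j).testBit (Fin.val k) = true → (dn i).testBit (Fin.val k) = true := by decide
    exact fun i j k h1 h2 => this i j h1 k h2
  le_antisymm := by
    have : ∀ i j : Fin 16, (dn i).testBit (Fin.val j) = true →
      (dn j).testBit (Fin.val i) = true → i = j := by decide
    exact this

/-- grades -/
def gr : Q16 → ℕ := (![0, 1, 1, 1, 1, 1, 1, 2, 2, 2, 2, 3, 3, 3, 3, 4] : Fin 16 → ℕ)

/-- labels in the rows -/
def Lm : Q16 → ℕ := (![65415, 26525, 8163, 17941, 8589, 5443, 2723, 1105, 561, 329, 169,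
  65, 33, 17, 9, 1] : Fin 16 → ℕ)

/-- `v` is a label in row `s` -/
def inL (s v : Q16) : Prop := (Lm s).testBit (Fin.val v) = true

instance (s v : Q16) : Decidable (inL s v) :=
  inferInstanceAs (Decidable ((Lm s).testBit (Fin.val v) = true))

/-- coefficients of the differential -/
def dl (v w : Q16) : ℤ :=
  match Fin.val v, Fin.val w with
  | 0, 1 => 1 | 0, 2 => 1 | 0, 3 => 1 | 0, 4 => 1 | 0, 5 => 1 | 0, 6 => 1
  | 1, 7 => 1 | 1, 8 => 1 | 1, 9 => 1 | 1, 10 => 1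
  | 2, 7 => -1 | 2, 8 => -1 | 2, 9 => -1 | 2, 10 => -1
  | 3, 7 => 1 | 3, 8 => 1 | 4, 9 => 1 | 4, 10 => 1
  | 5, 7 => -1 | 5, 9 => -1 | 6, 8 => -1 | 6, 10 => -1
  | 7, 11 => 1 | 9, 11 => -1 | 8, 12 => 1 | 10, 12 => -1
  | 7, 13 => 1 | 8, 13 => -1 | 9, 14 => 1 | 10, 14 => -1
  | 11, 15 => 1 | 12, 15 => -1 | 13, 15 => -1 | 14, 15 => 1
  | _, _ => 0

/-- table of the contracting homotopies -/
def Htab : List (ℕ × List (ℕ × ℕ × ℤ)) := [
  (3, [(0, 1, 1)]),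
  (5, [(0, 2, 1)]),
  (9, [(0, 3, 1)]),
  (17, [(0, 4, 1)]),
  (33, [(0, 5, 1)]),
  (65, [(0, 6, 1)]),
  (135, [(0, 1, 1), (2, 7, -1)]),
  (141, [(0, 2, 1), (3, 7, 1)]),
  (163, [(0, 1, 1), (5, 7, -1)]),
  (169, [(0, 3, 1), (5, 7, -1)]),
  (263, [(0, 1, 1), (2, 8, -1)]),
  (269, [(0, 2, 1), (3, 8, 1)]),
  (323, [(0, 1, 1), (6, 8, -1)]),
  (329, [(0, 3, 1), (6, 8, -1)]),
  (483, [(0, 1, 1), (5, 7, -1), (6, 8, -1)]),
  (519, [(0, 1, 1), (2, 9, -1)]),
  (533, [(0, 2, 1), (4, 9, 1)]),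
  (547, [(0, 1, 1), (5, 9, -1)]),
  (561, [(0, 4, 1), (5, 9, -1)]),
  (669, [(0, 2, 1), (3, 7, 1), (4, 9, 1)]),
  (1031, [(0, 1, 1), (2, 10, -1)]),
  (1045, [(0, 2, 1), (4, 10, 1)]),
  (1091, [(0, 1, 1), (6, 10, -1)]),
  (1105, [(0, 4, 1), (6, 10, -1)]),
  (1309, [(0, 2, 1), (3, 8, 1), (4, 10, 1)]),
  (1635, [(0, 1, 1), (5, 9, -1), (6, 10, -1)]),
  (2695, [(0, 1, 1), (2, 7, -1), (9, 11, -1)]),
  (2723, [(0, 1, 1), (5, 7, -1), (9, 11, -1)]),
  (5383, [(0, 1, 1), (2, 8, -1), (10, 12, -1)]),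
  (5443, [(0, 1, 1), (6, 8, -1), (10, 12, -1)]),
  (8163, [(0, 1, 1), (5, 7, -1), (6, 8, -1), (9, 11, -1), (10, 12, -1)]),
  (8583, [(0, 1, 1), (2, 7, -1), (8, 13, -1)]),
  (8589, [(0, 2, 1), (3, 7, 1), (8, 13, -1)]),
  (17927, [(0, 1, 1), (2, 9, -1), (10, 14, -1)]),
  (17941, [(0, 2, 1), (4, 9, 1), (10, 14, -1)]),
  (26525, [(0, 2, 1), (3, 7, 1), (4, 9, 1), (8, 13, -1), (10, 14, -1)]),
  (65415, [(0, 1, 1), (2, 7, -1), (8, 13, -1), (9, 11, -1), (10, 12, -1), (10, 13, -1), (14, 15, 1)])]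

/-- coefficients of the contracting homotopies -/
def hh (s u v w : Q16) : ℤ :=
  if inL s v ∧ u ≤ v ∧ inL s w ∧ u ≤ w ∧ gr w = gr v + 1 then
    ((Htab.lookup (Lm s &&& dn u)).getD []).foldr
      (fun e acc => if e.1 = Fin.val v ∧ e.2.1 = Fin.val w then e.2.2 else acc) 0
  else 0

lemma hh_ne_zero {s u v w : Q16} (h : hh s u v w ≠ 0) :
    inL s v ∧ u ≤ v ∧ inL s w ∧ u ≤ w ∧ gr w = gr v + 1 := by
  by_contra hc
  exact h (if_neg hc)

/-- the homotopy identity as a Boolean function -/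
def hcheck (s u v0 v1 : Q16) : Bool :=
  decide (((List.finRange 16).map (fun v : Fin 16 =>
    dl v v0 * hh s u v v1 + hh s u v0 v * dl v1 v)).sum = if v0 = v1 then 1 else 0)

set_option maxRecDepth 100000 in
set_option maxHeartbeats 4000000 in
lemma homotopy_check' : ∀ s u : Q16, ¬ s ≤ u → ∀ v0 : Q16, inL s v0 ∧ u ≤ v0 →
    ∀ v1 : Q16, inL s v1 ∧ u ≤ v1 → hcheck s u v0 v1 = true := by
  decide

lemma homotopy_check (s u : Q16) (h : ¬ s ≤ u) (v0 : Q16) (h1 : inL s v0) (h2 : u ≤ v0)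
    (v1 : Q16) (h3 : inL s v1) (h4 : u ≤ v1) :
    ((List.finRange 16).map (fun v : Fin 16 =>
      dl v v0 * hh s u v v1 + hh s u v0 v * dl v1 v)).sum = if v0 = v1 then 1 else 0 :=
  of_decide_eq_true (homotopy_check' s u h v0 ⟨h1, h2⟩ v1 ⟨h3, h4⟩)

set_option maxRecDepth 100000 in
lemma dl_ne_zero : ∀ v w : Q16, dl v w ≠ 0 → w ≤ v ∧ gr w = gr v + 1 := by decide

set_option maxRecDepth 100000 in
lemma dd_check : ∀ s v : Q16, inL s v → ∀ w' : Q16, inL s w' →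
    ((List.finRange 16).map (fun w => if inL s w then dl v w * dl w w' else 0)).sum = 0 := by
  decide

set_option maxRecDepth 100000 in
lemma inL_zero : ∀ s : Q16, inL s 0 := by decide

set_option maxRecDepth 100000 in
lemma eq_zero_of_le : ∀ s u : Q16, s ≤ u → ∀ v : Q16, inL s v → u ≤ v → v = 0 := by decide

set_option maxRecDepth 100000 in
lemma gr_mono : ∀ u v : Q16, u ≤ v → gr v ≤ gr u := by decide

set_option maxRecDepth 100000 in
lemma val_lt : ∀ u v : Q16, u ≤ v → u ≠ v → Fin.val v < Fin.val u := by decide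

set_option maxRecDepth 100000 in
lemma le_zero' : ∀ u : Q16, u ≤ 0 := by decide

lemma gr_le : ∀ u : Q16, gr u ≤ 4 := by decide

lemma gr_eq_zero : ∀ u : Q16, gr u = 0 → u = 0 := by decide

/-- the row in which the injective with label `v` is the last term -/
def rw' : Q16 → Q16 := (![15, 0, 0, 14, 13, 12, 11, 10, 9, 8, 7, 6, 5, 4, 3, 0] : Fin 16 → Fin 16)

set_option maxRecDepth 100000 in
lemma rw_check : ∀ v : Q16, v ≠ 1 → v ≠ 2 → inL (rw' v) v ∧ ∀ w : Q16, inL (rw' v) w → dl v w = 0 := by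
  decide

set_option maxRecDepth 100000 in
lemma cover_check : ∀ v' : Q16, (v' = 1 ∨ v' = 2) → ∀ w : Q16, dl v' w ≠ 0 → ∀ u : Q16, u ≤ w →
    ∃ v : Q16, v ≠ 1 ∧ v ≠ 2 ∧ gr v = 1 ∧ u ≤ v ∧ v ≤ v' := by
  decide

end AusPure
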