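import Mathlib
import Pool.Agent.Lib_helper73.AusPure.Homological
import Pool.Agent.Lib_helper73.AusPure.GlDim
import Pool.Agent.Lib_helper73.AusPure.Poset

open CategoryTheory Abelian MulOpposite

universe u

set_option linter.unusedSectionVars false
set_option linter.style.haveILetI false

namespace AusPure

variable (K : Type u) [Field K]

/-- the algebra -/
abbrev AA : Type u := incAlg K Q16

/-- modules over this ring are right modules over the algebra -/
abbrev RQ : Type u := RR K Q16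

/-- index set of the summands of the `n`-th term -/
abbrev TT (n : ℕ) : Type := {p : Q16 × Q16 // inL p.1 p.2 ∧ gr p.2 = n}

/-- the `n`-th term -/
abbrev II (n : ℕ) : Type u := ∀ t : TT n, CI K K t.1.2

variable {K}

/-- coordinates, as linear forms -/
def coL (n : ℕ) (s v u : Q16) : II K n →ₗ[K] K :=
  if h : inL s v ∧ gr v = n then
    (CI.coord (K := K) (W := K) v u) ∘ₗ (LinearMap.proj (⟨(s, v), h⟩ : TT n))
  else 0

/-- coordinates -/
def co {n : ℕ} (m : II K n) (s v u : Q16) : K := coL n s v u m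

lemma co_def {n : ℕ} (m : II K n) (s v u : Q16) (h : inL s v ∧ gr v = n) :
    co m s v u = (m ⟨(s, v), h⟩).c u := by
  unfold co coL
  rw [dif_pos h]
  rfl

lemma co_t {n : ℕ} (m : II K n) (t : TT n) (u : Q16) : (m t).c u = co m t.1.1 t.1.2 u := by
  rw [co_def _ _ _ _ t.2]

lemma co_eq_zero {n : ℕ} (m : II K n) (s v u : Q16) (h : ¬ (inL s v ∧ gr v = n ∧ u ≤ v)) :
    co m s v u = 0 := by
  by_cases h1 : inL s v ∧ gr v = n
  · rw [co_def _ _ _ _ h1]
    exact CI.c_eq_zero _ (fun h2 => h ⟨h1.1, h1.2, h2⟩)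
  · unfold co coL
    rw [dif_neg h1]
    rfl

lemma co_ne_zero {n : ℕ} {m : II K n} {s v u : Q16} (h : co m s v u ≠ 0) :
    inL s v ∧ gr v = n ∧ u ≤ v := by
  by_contra hc
  exact h (co_eq_zero m s v u hc)

lemma co_ext {n : ℕ} {m m' : II K n} (h : ∀ s v u, inL s v → gr v = n → u ≤ v →
    co m s v u = co m' s v u) : m = m' := by
  funext t
  apply CI.ext'
  intro u hu
  rw [co_t, co_t]
  exact h _ _ _ t.2.1 t.2.2 hu

lemma co_zero {n : ℕ} (s v u : Q16) : co (0 : II K n) s v u = 0 := map_zero _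

lemma co_add {n : ℕ} (m m' : II K n) (s v u : Q16) :
    co (m + m') s v u = co m s v u + co m' s v u := map_add _ _ _

lemma co_E_smul {n : ℕ} (i j : Q16) (h : i ≤ j) (m : II K n) (s v u : Q16) :
    co ((E i j : RQ K) • m) s v u = if u = j ∧ j ≤ v then co m s v i else 0 := by
  by_cases h1 : inL s v ∧ gr v = n
  · rw [co_def _ _ _ _ h1, co_def _ _ _ _ h1, Pi.smul_apply, CI.c_E_smul _ _ h]
  · have h2 : ∀ (m' : II K n) (u' : Q16), co m' s v u' = 0 := fun m' u' =>
      co_eq_zero _ _ _ _ (fun hh => h1 ⟨hh.1, hh.2.1⟩)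
    rw [h2, h2, ite_self]

/-- element with given coordinates -/
def mkI (n : ℕ) (f : Q16 → Q16 → Q16 → K) : II K n := fun t => CI.mk (fun u => f t.1.1 t.1.2 u)

lemma co_mkI (n : ℕ) (f : Q16 → Q16 → Q16 → K) (s v u : Q16) :
    co (mkI n f) s v u = if inL s v ∧ gr v = n ∧ u ≤ v then f s v u else 0 := by
  by_cases h : inL s v ∧ gr v = n ∧ u ≤ v
  · rw [if_pos h, co_def _ _ _ _ ⟨h.1, h.2.1⟩]
    exact CI.c_mk_of_le _ h.2.2
  · rw [if_neg h, co_eq_zero _ _ _ _ h]

/-- linear form defining a component of the differential -/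
def lam (n : ℕ) (s w : Q16) : II K n →ₗ[K] K := ∑ v : Q16, ((dl v w : ℤ) : K) • coL n s v w

/-- the differential -/
def dd (n : ℕ) : II K n →ₗ[RQ K] II K (n + 1) :=
  LinearMap.pi (fun t : TT (n + 1) => toCI t.1.2 (lam n t.1.1 t.1.2))

lemma co_dd (n : ℕ) (m : II K n) (s w u : Q16) :
    co (dd n m) s w u = if inL s w ∧ gr w = n + 1 ∧ u ≤ w then
      ∑ v : Q16, ((dl v w : ℤ) : K) * co m s v u else 0 := by
  by_cases h : inL s w ∧ gr w = n + 1 ∧ u ≤ w
  · rw [if_pos h, co_def _ _ _ _ ⟨h.1, h.2.1⟩]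
    change (toCI w (lam n s w) m).c u = _
    rw [toCI_c _ _ h.2.2]
    unfold lam
    rw [LinearMap.sum_apply]
    apply Finset.sum_congr rfl
    intro v _
    rw [LinearMap.smul_apply, smul_eq_mul]
    change _ * co ((E u w : RQ K) • m) s v w = _
    rw [co_E_smul _ _ h.2.2]
    by_cases h0 : dl v w = 0
    · rw [h0]; simp
    · rw [if_pos ⟨rfl, (dl_ne_zero v w h0).1⟩]
  · rw [if_neg h, co_eq_zero _ _ _ _ h]

lemma sum_finRange (f : Q16 → ℤ) : ∑ v : Q16, f v = ((List.finRange 16).map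
    (fun v : Fin 16 => f v)).sum := by
  exact (Fin.sum_univ_def (n := 16) f)

lemma dd_dd (n : ℕ) (m : II K n) : dd (n + 1) (dd n m) = 0 := by
  apply co_ext
  intro s w' u h1 h2 h3
  rw [co_zero, co_dd, if_pos ⟨h1, h2, h3⟩]
  have h4 : ∀ w : Q16, ((dl w w' : ℤ) : K) * co (dd n m) s w u =
      ∑ v : Q16, (((if inL s w then dl v w * dl w w' else 0 : ℤ)) : K) * co m s v u := by
    intro w
    by_cases h0 : dl w w' = 0
    · rw [h0]; simp
    · obtain ⟨h5, h6⟩ := dl_ne_zero w w' h0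
      by_cases h7 : inL s w
      · rw [co_dd, if_pos ⟨h7, by omega, h3.trans h5⟩, Finset.mul_sum]
        apply Finset.sum_congr rfl
        intro v _
        rw [if_pos h7]
        push_cast
        ring
      · rw [co_eq_zero _ _ _ _ (fun hh => h7 hh.1), mul_zero]
        symm
        apply Finset.sum_eq_zero
        intro v _
        rw [if_neg h7]
        simp
  rw [Finset.sum_congr rfl (fun w _ => h4 w), Finset.sum_comm]
  apply Finset.sum_eq_zero
  intro v _
  rw [← Finset.sum_mul]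
  by_cases h8 : inL s v
  · have h9 : ∑ w : Q16, (if inL s w then dl v w * dl w w' else 0) = 0 := by
      rw [sum_finRange]
      exact dd_check s v h8 w' h1
    rw [← Int.cast_sum, h9]
    simp
  · rw [co_eq_zero _ _ _ _ (fun hh => h8 hh.1), mul_zero]

/-- homotopy formula -/
lemma homotopy (n : ℕ) (m : II K n) (s v0 u : Q16) (hsu : ¬ s ≤ u) (h1 : inL s v0)
    (h2 : gr v0 = n) (h3 : u ≤ v0) :
    co m s v0 u = ∑ v : Q16, ((dl v v0 : ℤ) : K) * (∑ v1 : Q16, ((hh s u v v1 : ℤ) : K) * co m s v1 u)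
      + ∑ v : Q16, ((hh s u v0 v : ℤ) : K) * co (dd n m) s v u := by
  have h4 : ∀ v : Q16, ((hh s u v0 v : ℤ) : K) * co (dd n m) s v u =
      ((hh s u v0 v : ℤ) : K) * ∑ v1 : Q16, ((dl v1 v : ℤ) : K) * co m s v1 u := by
    intro v
    by_cases h0 : hh s u v0 v = 0
    · rw [h0]; simp
    · obtain ⟨_, _, h5, h6, h7⟩ := hh_ne_zero h0
      rw [co_dd, if_pos ⟨h5, by omega, h6⟩]
  rw [Finset.sum_congr rfl (fun v _ => h4 v), ← Finset.sum_add_distrib]
  have h5 : ∀ v : Q16, ((dl v v0 : ℤ) : K) * (∑ v1 : Q16, ((hh s u v v1 : ℤ) : K) * co m s v1 u) +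
      ((hh s u v0 v : ℤ) : K) * ∑ v1 : Q16, ((dl v1 v : ℤ) : K) * co m s v1 u =
      ∑ v1 : Q16, ((dl v v0 * hh s u v v1 + hh s u v0 v * dl v1 v : ℤ) : K) * co m s v1 u := by
    intro v
    rw [Finset.mul_sum, Finset.mul_sum, ← Finset.sum_add_distrib]
    apply Finset.sum_congr rfl
    intro v1 _
    push_cast
    ring
  rw [Finset.sum_congr rfl (fun v _ => h5 v), Finset.sum_comm]
  have h6 : ∀ v1 : Q16, ∑ v : Q16, ((dl v v0 * hh s u v v1 + hh s u v0 v * dl v1 v : ℤ) : K) *
      co m s v1 u = if v0 = v1 then co m s v1 u else 0 := by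
    intro v1
    by_cases h7 : co m s v1 u = 0
    · rw [h7]; simp
    · obtain ⟨h8, h9, h10⟩ := co_ne_zero h7
      rw [← Finset.sum_mul, ← Int.cast_sum, sum_finRange,
        homotopy_check s u hsu v0 h1 h3 v1 h8 h10]
      by_cases h11 : v0 = v1
      · rw [if_pos h11, if_pos h11]; simp
      · rw [if_neg h11, if_neg h11]; simp
  rw [Finset.sum_congr rfl (fun v1 _ => h6 v1), Finset.sum_ite_eq, if_pos (Finset.mem_univ _)]

lemma exact_dd (n : ℕ) (m : II K (n + 1)) (hm : dd (n + 1) m = 0) : ∃ m', dd n m' = m := by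
  refine ⟨mkI n (fun s v u => ∑ v1 : Q16, ((hh s u v v1 : ℤ) : K) * co m s v1 u), ?_⟩
  apply co_ext
  intro s v0 u h1 h2 h3
  by_cases hsu : s ≤ u
  · have := eq_zero_of_le s u hsu v0 h1 h3
    subst this
    exact absurd h2 (by simp [gr])
  · rw [co_dd, if_pos ⟨h1, h2, h3⟩, homotopy (n + 1) m s v0 u hsu h1 h2 h3, hm]
    have h4 : ∑ v : Q16, ((hh s u v0 v : ℤ) : K) * co (0 : II K (n + 1 + 1)) s v u = 0 :=
      Finset.sum_eq_zero (fun v _ => by rw [co_zero, mul_zero])
    rw [h4, add_zero]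
    apply Finset.sum_congr rfl
    intro v _
    by_cases h0 : dl v v0 = 0
    · rw [h0]; simp
    · congr 1
      obtain ⟨h5, h6⟩ := dl_ne_zero v v0 h0
      rw [co_mkI]
      by_cases h7 : inL s v
      · rw [if_pos ⟨h7, by omega, h3.trans h5⟩]
      · rw [if_neg (fun hh => h7 hh.1)]
        symm
        apply Finset.sum_eq_zero
        intro v1 _
        have : hh s u v v1 = 0 := by
          by_contra h8
          exact h7 (hh_ne_zero h8).1
        rw [this]; simp

/-- the coaugmentation -/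
def eps : AA K →ₗ[RQ K] II K 0 where
  toFun a := mkI 0 (fun s _ u => a.1 s u)
  map_add' a b := by
    apply co_ext
    intro s v u h1 h2 h3
    rw [co_add, co_mkI, co_mkI, co_mkI, if_pos ⟨h1, h2, h3⟩, if_pos ⟨h1, h2, h3⟩,
      if_pos ⟨h1, h2, h3⟩]
    rfl
  map_smul' r a := by
    apply co_ext
    intro s v u h1 h2 h3
    rw [RingHom.id_apply, co_mkI, if_pos ⟨h1, h2, h3⟩, co_def _ _ _ _ ⟨h1, h2⟩, Pi.smul_apply,
      CI.c_rsmul_of_le _ _ h3]
    change (a * unop r).1 s u = _
    change (a.1 * (unop r).1) s u = _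
    rw [Matrix.mul_apply]
    apply Finset.sum_congr rfl
    intro w _
    have hv : v = 0 := gr_eq_zero v h2
    subst hv
    have : (mkI 0 (fun s _ u => a.1 s u) ⟨(s, 0), ⟨h1, h2⟩⟩ : CI K K (0 : Q16)).c w = a.1 s w :=
      CI.c_mk_of_le _ (le_zero' w)
    rw [this, smul_eq_mul, mul_comm]
    rfl

lemma co_eps (a : AA K) (s u : Q16) : co (eps a) s 0 u = a.1 s u := by
  change co (mkI 0 (fun s _ u => a.1 s u)) s 0 u = _
  rw [co_mkI, if_pos ⟨inL_zero s, rfl, le_zero' u⟩]

lemma eps_injective : Function.Injective (eps (K := K)) := by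
  intro a b h
  apply Subtype.ext
  ext s u
  rw [← co_eps, ← co_eps, h]

lemma dd_eps (a : AA K) : dd 0 (eps a) = 0 := by
  apply co_ext
  intro s w u h1 h2 h3
  rw [co_zero, co_dd, if_pos ⟨h1, h2, h3⟩, Finset.sum_eq_single (0 : Q16)]
  · rw [co_eps]
    by_cases hsu : s ≤ u
    · have := eq_zero_of_le s u hsu w h1 h3
      subst this
      exact absurd h2 (by simp [gr])
    · rw [a.2 s u hsu, mul_zero]
  · intro v _ hv
    rw [co_eq_zero _ _ _ _ (fun hh => hv (gr_eq_zero v hh.2.1)), mul_zero]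
  · intro h; exact absurd (Finset.mem_univ _) h

lemma exact_eps (m : II K 0) (hm : dd 0 m = 0) : ∃ a, eps a = m := by
  refine ⟨⟨fun s u => co m s 0 u, ?_⟩, ?_⟩
  · intro s u hsu
    change co m s 0 u = 0
    rw [homotopy 0 m s 0 u hsu (inL_zero s) rfl (le_zero' u), hm]
    have h4 : ∑ v : Q16, ((hh s u 0 v : ℤ) : K) * co (0 : II K (0 + 1)) s v u = 0 :=
      Finset.sum_eq_zero (fun v _ => by rw [co_zero, mul_zero])
    rw [h4, add_zero]
    apply Finset.sum_eq_zero
    intro v _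
    have : dl v 0 = 0 := by
      by_contra h0
      have := (dl_ne_zero v 0 h0).2
      simp [gr] at this
    rw [this]; simp
  · apply co_ext
    intro s v u h1 h2 h3
    have hv : v = 0 := gr_eq_zero v h2
    subst hv
    rw [co_eps]

/-- every nonzero submodule contains a nonzero cocycle -/
lemma essential_aux (n : ℕ) (N : Submodule (RQ K) (II K n)) (hN : N ≠ ⊥) :
    ∃ m ∈ N, m ≠ 0 ∧ dd n m = 0 := by
  obtain ⟨m, hm, hm0⟩ := N.ne_bot_iff.1 hN
  have h1 : ∃ k : ℕ, ∃ s v u : Q16, co m s v u ≠ 0 ∧ Fin.val v = k := by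
    by_contra hc
    push Not at hc
    apply hm0
    apply co_ext
    intro s v u _ _ _
    rw [co_zero]
    by_contra h0
    exact hc _ s v u h0 rfl
  classical
  obtain ⟨s, v, u, h2, h3⟩ := Nat.find_spec h1
  have hmin := fun k => Nat.find_min h1 (m := k)
  obtain ⟨h4, h5, h6⟩ := co_ne_zero h2
  refine ⟨(E u v : RQ K) • m, N.smul_mem _ hm, ?_, ?_⟩
  · intro h0
    have := congrArg (fun m' => co m' s v v) h0
    simp only [co_zero] at this
    rw [co_E_smul _ _ h6, if_pos ⟨rfl, le_rfl⟩] at this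
    exact h2 this
  · apply co_ext
    intro s' w u' h7 h8 h9
    rw [co_zero, co_dd, if_pos ⟨h7, h8, h9⟩]
    apply Finset.sum_eq_zero
    intro v' _
    rw [co_E_smul _ _ h6]
    by_cases h10 : u' = v ∧ v ≤ v'
    · rw [if_pos h10]
      by_cases h11 : co m s' v' u = 0
      · rw [h11, mul_zero]
      · by_cases h12 : dl v' w = 0
        · rw [h12]; simp
        · exfalso
          obtain ⟨h13, h14⟩ := dl_ne_zero v' w h12
          by_cases h15 : v = v'
          · subst h15
            obtain ⟨rfl, _⟩ := h10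
            have := gr_mono _ _ h9
            omega
          · have h16 := val_lt v v' h10.2 h15
            refine hmin (Fin.val v') ?_ ⟨s', v', u, h11, rfl⟩
            rw [← h3]
            exact h16
    · rw [if_neg h10, mul_zero]

end AusPure
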