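import Mathlib
import Pool.Agent.Lib_helper73.AusPure.Complex

open CategoryTheory Abelian MulOpposite

universe u

set_option linter.unusedSectionVars false
set_option linter.style.haveILetI false

namespace AusPure

variable {K : Type u} [Field K]

lemma co_single {n : ℕ} (t : TT n) (z : CI K K t.1.2) (s v u : Q16) :
    co (Pi.single t z : II K n) s v u = if s = t.1.1 ∧ v = t.1.2 then z.c u else 0 := by
  by_cases h : inL s v ∧ gr v = n
  · rw [co_def _ _ _ _ h]
    by_cases h1 : s = t.1.1 ∧ v = t.1.2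
    · rw [if_pos h1]
      obtain ⟨⟨s', v'⟩, ht⟩ := t
      obtain ⟨rfl, rfl⟩ := h1
      rw [Pi.single_eq_same]
    · rw [if_neg h1, Pi.single_eq_of_ne, CI.c_zero]
      rintro h2
      apply h1
      rw [← h2]
      exact ⟨rfl, rfl⟩
  · rw [co_eq_zero _ _ _ _ (fun hh => h ⟨hh.1, hh.2.1⟩), if_neg]
    rintro ⟨rfl, rfl⟩
    exact h t.2

variable (K) in
/-- the coresolution -/
noncomputable def CC : MinInjCoresolution (regular (AA K)) where
  I n := ModuleCat.of (RQ K) (II K n)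
  ε := ModuleCat.ofHom eps
  d n := ModuleCat.ofHom (dd n)
  injective n := (Module.injective_iff_injective_object (RQ K) (II K n)).1 inferInstance
  mono := (ModuleCat.mono_iff_injective _).2 eps_injective
  exact_zero := fun m => ⟨fun h => exact_eps m h, fun ⟨a, ha⟩ => by
    rw [← ha]; exact dd_eps a⟩
  exact_succ := fun n m => ⟨fun h => exact_dd n m h, fun ⟨a, ha⟩ => by
    rw [← ha]; exact dd_dd n a⟩
  essential_zero := by
    intro N hN
    obtain ⟨m, hm, hm0, hd⟩ := essential_aux 0 N hN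
    obtain ⟨a, ha⟩ := exact_eps m hd
    intro h
    have h1 : m ∈ N ⊓ LinearMap.range (ModuleCat.ofHom (eps (K := K))).hom :=
      ⟨hm, ⟨a, ha⟩⟩
    rw [h] at h1
    exact hm0 h1
  essential_succ := by
    intro n N hN
    obtain ⟨m, hm, hm0, hd⟩ := essential_aux (n + 1) N hN
    obtain ⟨a, ha⟩ := exact_dd n m hd
    intro h
    have h1 : m ∈ N ⊓ LinearMap.range (ModuleCat.ofHom (dd (K := K) n)).hom :=
      ⟨hm, ⟨a, ha⟩⟩
    rw [h] at h1
    exact hm0 h1

lemma hom_eq_zero {n k : ℕ} (hk : k < n) {X : Type u} [AddCommGroup X] [Module (RQ K) X]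
    (j : X →ₗ[RQ K] II K n) (hj : Function.Injective j) (f : X →ₗ[RQ K] II K k) : f = 0 := by
  ext1 x
  apply co_ext
  intro s v u h1 h2 h3
  rw [LinearMap.zero_apply, co_zero]
  have h4 : (E u v : RQ K) • x = 0 := by
    apply hj
    rw [map_zero, map_smul]
    apply co_ext
    intro s' v' u' h5 h6 h7
    rw [co_zero, co_E_smul _ _ h3, if_neg]
    rintro ⟨rfl, h8⟩
    have := gr_mono _ _ h8
    omega
  have h5 : co ((E u v : RQ K) • f x) s v v = co (f x) s v u := by
    rw [co_E_smul _ _ h3, if_pos ⟨rfl, le_rfl⟩]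
  rw [← h5, ← map_smul, h4, map_zero, co_zero]

lemma exists_hom {n : ℕ} {X : Type u} [AddCommGroup X] [Module (RQ K) X]
    (j : X →ₗ[RQ K] II K n) (hj : Function.Injective j) (hX : ∃ x : X, x ≠ 0) :
    ∃ f : X →ₗ[RQ K] II K n, f ≠ 0 ∧ ∀ x, dd n (f x) = 0 := by
  by_cases hA : ∃ (x : X) (s v' v : Q16), gr v = n ∧ v ≠ 1 ∧ v ≠ 2 ∧ co (j x) s v' v ≠ 0
  · obtain ⟨x, s, v', v, hv, hv1, hv2, hne⟩ := hA
    obtain ⟨h1, h2, h3⟩ := co_ne_zero hne
    obtain ⟨h4, h5⟩ := rw_check v hv1 hv2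
    let t₀ : TT n := ⟨(rw' v, v), ⟨h4, hv⟩⟩
    let G : II K n →ₗ[RQ K] CI K K (t₀.1.2) := toCI v (coL n s v' v)
    let f : X →ₗ[RQ K] II K n := LinearMap.single (RQ K) (fun t : TT n => CI K K t.1.2) t₀ ∘ₗ G ∘ₗ j
    have hf : ∀ y, f y = Pi.single t₀ (G (j y)) := fun y => rfl
    refine ⟨f, ?_, ?_⟩
    · intro h0
      have h6 : co (f x) (rw' v) v v = co (j x) s v' v := by
        rw [hf, co_single, if_pos ⟨rfl, rfl⟩]
        change (toCI v (coL n s v' v) (j x)).c v = _
        rw [toCI_c _ _ le_rfl]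
        change co ((E v v : RQ K) • j x) s v' v = _
        rw [co_E_smul _ _ le_rfl, if_pos ⟨rfl, h3⟩]
      rw [h0, LinearMap.zero_apply, co_zero] at h6
      exact hne h6.symm
    · intro y
      apply co_ext
      intro s' w u h6 h7 h8
      rw [co_zero, co_dd, if_pos ⟨h6, h7, h8⟩]
      apply Finset.sum_eq_zero
      intro v'' _
      rw [hf, co_single]
      by_cases h9 : s' = t₀.1.1 ∧ v'' = t₀.1.2
      · rw [h9.2]
        have : dl t₀.1.2 w = 0 := h5 w (by rw [h9.1] at h6; exact h6)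
        rw [this]; simp
      · rw [if_neg h9, mul_zero]
  · push Not at hA
    obtain ⟨x, hx⟩ := hX
    have h0 : j x ≠ 0 := fun h => hx (hj (by rw [h, map_zero]))
    have h1 : ∃ s v' u : Q16, co (j x) s v' u ≠ 0 := by
      by_contra hc
      push Not at hc
      apply h0
      apply co_ext
      intro s v u _ _ _
      rw [hc, co_zero]
    obtain ⟨s, v', u, hne⟩ := h1
    obtain ⟨h2, h3, h4⟩ := co_ne_zero hne
    have key : ∀ (y : X) (u v : Q16), u ≤ v → v ≤ v' → gr v = n → v ≠ 1 → v ≠ 2 →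
        co (j y) s v' u = 0 := by
      intro y u v h5 h6 h7 h8 h9
      have h10 := hA ((E u v : RQ K) • y) s v' v h7 h8 h9
      rwa [map_smul, co_E_smul _ _ h5, if_pos ⟨rfl, h6⟩] at h10
    have hv' : v' = 1 ∨ v' = 2 := by
      by_contra hc
      push Not at hc
      exact hne (key x u v' h4 le_rfl h3 hc.1 hc.2)
    let t₀ : TT n := ⟨(s, v'), ⟨h2, h3⟩⟩
    let f : X →ₗ[RQ K] II K n := LinearMap.single (RQ K) (fun t : TT n => CI K K t.1.2) t₀ ∘ₗ
      (LinearMap.proj t₀) ∘ₗ j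
    have hf : ∀ y, f y = Pi.single t₀ ((j y) t₀) := fun y => rfl
    refine ⟨f, ?_, ?_⟩
    · intro h5
      have h6 : co (f x) s v' u = co (j x) s v' u := by
        rw [hf, co_single, if_pos ⟨rfl, rfl⟩, co_t]
      rw [h5, LinearMap.zero_apply, co_zero] at h6
      exact hne h6.symm
    · intro y
      apply co_ext
      intro s' w u' h6 h7 h8
      rw [co_zero, co_dd, if_pos ⟨h6, h7, h8⟩]
      apply Finset.sum_eq_zero
      intro v'' _
      rw [hf, co_single]
      by_cases h9 : s' = t₀.1.1 ∧ v'' = t₀.1.2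
      · rw [if_pos h9, co_t]
        by_cases h10 : dl v' w = 0
        · have : dl v'' w = 0 := by rw [h9.2]; exact h10
          rw [this]; simp
        · obtain ⟨v, h11, h12, h13, h14, h15⟩ := cover_check v' hv' w h10 u' h8
          have h16 : gr v' = 1 := by rcases hv' with rfl | rfl <;> rfl
          have h17 : co (j y) t₀.1.1 t₀.1.2 u' = 0 :=
            key y u' v h14 h15 (by rw [h13, ← h16, h3]) h11 h12
          rw [h17, mul_zero]
      · rw [if_neg h9, mul_zero]

lemma grade_eq (n : ℕ) (X : ModuleCat.{u} (RQ K)) (j : X →ₗ[RQ K] II K n)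
    (hj : Function.Injective j) (hX : ∃ x : X, x ≠ 0) : grade (AA K) X = (n : ℕ∞) := by
  have hlow : ∀ k < n, ∀ e : Ext.{u} X (regular (AA K)) k, e = 0 := by
    intro k hk e
    apply (CC K).ext_eq_zero' k X
    intro f
    have := hom_eq_zero hk j hj f.hom
    ext1
    exact this
  have hup : Nontrivial (Ext.{u} X (regular (AA K)) n) := by
    obtain ⟨f, hf0, hf⟩ := exists_hom j hj hX
    obtain ⟨e, he⟩ : ∃ e : Ext.{u} X (regular (AA K)) n, e ≠ 0 := by
      cases n with
      | zero =>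
        refine (CC K).ext_nontrivial_zero X (ModuleCat.ofHom f) ?_ ?_
        · ext x
          exact congrArg (fun z => z) (hf x) ▸ rfl
        · intro h
          exact hf0 (congrArg ModuleCat.Hom.hom h)
      | succ k =>
        refine (CC K).ext_nontrivial' k X (ModuleCat.ofHom f) ?_ ?_
        · ext1
          ext1 x
          exact hf x
        · intro φ hφ
          have h1 := hom_eq_zero (Nat.lt_succ_self k) j hj φ.hom
          apply hf0
          have h3 : ∀ x, f x = dd k (φ.hom x) := fun x =>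
            (congrArg (fun (g : X ⟶ (CC K).I (k + 1)) => g.hom x) hφ).symm
          ext1 x
          have h4 : φ.hom x = 0 := LinearMap.congr_fun h1 x
          rw [h3, h4]
          exact map_zero _
    exact ⟨e, 0, he⟩
  apply le_antisymm
  · exact sInf_le ⟨n, rfl, hup⟩
  · apply le_sInf
    rintro b ⟨i, rfl, hi⟩
    by_contra hc
    push Not at hc
    have h1 : i < n := by exact_mod_cast hc
    obtain ⟨a, b, hab⟩ := hi
    exact hab (by rw [hlow i h1 a, hlow i h1 b])

lemma exists_ne_zero (n : ℕ) (hn : n ≤ 4) : ∃ x : II K n, x ≠ 0 := by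
  have h1 : ∃ t : TT n, True := by
    interval_cases n
    · exact ⟨⟨(0, 0), by decide⟩, trivial⟩
    · exact ⟨⟨(0, 1), by decide⟩, trivial⟩
    · exact ⟨⟨(0, 7), by decide⟩, trivial⟩
    · exact ⟨⟨(0, 11), by decide⟩, trivial⟩
    · exact ⟨⟨(0, 15), by decide⟩, trivial⟩
  obtain ⟨t, -⟩ := h1
  refine ⟨mkI n (fun _ _ _ => 1), fun h => ?_⟩
  have h2 : co (mkI n (fun _ _ _ => 1) : II K n) t.1.1 t.1.2 t.1.2 = 1 := by
    rw [co_mkI, if_pos ⟨t.2.1, t.2.2, le_rfl⟩]
  rw [h, co_zero] at h2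
  exact zero_ne_one h2

theorem pure_CC : IsPureCoresolution (AA K) (CC K) := by
  refine ⟨4, ?_, ?_⟩
  · intro i hi
    have h1 : grade (AA K) ((CC K).I i) = (i : ℕ∞) :=
      grade_eq i _ LinearMap.id Function.injective_id (exists_ne_zero i hi)
    refine ⟨?_, ?_, h1⟩
    · obtain ⟨x, hx⟩ := exists_ne_zero (K := K) i hi
      exact ⟨x, 0, hx⟩
    · intro N hN
      rw [h1]
      obtain ⟨x, hx, hx0⟩ := N.ne_bot_iff.1 hN
      exact grade_eq i (ModuleCat.of (RQ K) N) N.subtype N.injective_subtype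
        ⟨⟨x, hx⟩, fun h => hx0 (congrArg Subtype.val h)⟩
  · intro i hi
    have : IsEmpty (TT i) := ⟨fun t => by have := gr_le t.1.2; have := t.2.2; omega⟩
    exact inferInstanceAs (Subsingleton (II K i))

/-- the homomorphism showing that the projective dimension is too large -/
noncomputable def GG : II K 1 →ₗ[RQ K] II K 2 :=
  LinearMap.single (RQ K) (fun t : TT 2 => CI K K t.1.2) ⟨(2, 7), by decide⟩ ∘ₗ
      toCI (7 : Q16) (coL 1 0 1 7) +
  LinearMap.single (RQ K) (fun t : TT 2 => CI K K t.1.2) ⟨(2, 9), by decide⟩ ∘ₗ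
      toCI (9 : Q16) (coL 1 0 1 9)

lemma co_GG (m : II K 1) (s v u : Q16) : co (GG m) s v u =
    if s = 2 ∧ (v = 7 ∨ v = 9) ∧ u ≤ v then co m 0 1 u else 0 := by
  have h7 : (7 : Q16) ≤ 1 := by decide
  have h9 : (9 : Q16) ≤ 1 := by decide
  have e1 : ∀ u : Q16, (toCI (7 : Q16) (coL (K := K) 1 0 1 7) m).c u =
      if u ≤ 7 then co m 0 1 u else 0 := by
    intro u
    by_cases hu : u ≤ 7
    · rw [toCI_c _ _ hu, if_pos hu]
      change co ((E u 7 : RQ K) • m) 0 1 7 = _
      rw [co_E_smul _ _ hu, if_pos ⟨rfl, h7⟩]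
    · rw [CI.c_eq_zero _ hu, if_neg hu]
  have e2 : ∀ u : Q16, (toCI (9 : Q16) (coL (K := K) 1 0 1 9) m).c u =
      if u ≤ 9 then co m 0 1 u else 0 := by
    intro u
    by_cases hu : u ≤ 9
    · rw [toCI_c _ _ hu, if_pos hu]
      change co ((E u 9 : RQ K) • m) 0 1 9 = _
      rw [co_E_smul _ _ hu, if_pos ⟨rfl, h9⟩]
    · rw [CI.c_eq_zero _ hu, if_neg hu]
  have e3 : GG m = Pi.single (⟨(2, 7), by decide⟩ : TT 2) (toCI (7 : Q16) (coL 1 0 1 7) m) +
      Pi.single (⟨(2, 9), by decide⟩ : TT 2) (toCI (9 : Q16) (coL 1 0 1 9) m) := rfl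
  rw [e3, co_add, co_single, co_single]
  change (if s = 2 ∧ v = 7 then (toCI (7 : Q16) (coL (K := K) 1 0 1 7) m).c u else 0) +
    (if s = 2 ∧ v = 9 then (toCI (9 : Q16) (coL (K := K) 1 0 1 9) m).c u else 0) = _
  rw [e1, e2]
  have h79 : (7 : Q16) ≠ 9 := by decide
  by_cases hs : s = 2
  · by_cases hv7 : v = 7
    · subst hv7
      simp [hs, h79]
    · by_cases hv9 : v = 9
      · subst hv9
        simp [hs, hv7]
      · simp [hv7, hv9]
  · simp [hs]

lemma dd_GG (m : II K 1) : dd 2 (GG m) = 0 := by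
  apply co_ext
  intro s w u h1 h2 h3
  rw [co_zero, co_dd, if_pos ⟨h1, h2, h3⟩]
  have h79 : (7 : Q16) ≠ 9 := by decide
  have hsum : ∀ f : Q16 → K, (∀ v, v ≠ 7 → v ≠ 9 → f v = 0) → ∑ v, f v = f 7 + f 9 := by
    intro f hf
    rw [← Finset.sum_pair h79]
    symm
    apply Finset.sum_subset (Finset.subset_univ _)
    intro v _ hv
    simp only [Finset.mem_insert, Finset.mem_singleton, not_or] at hv
    exact hf v hv.1 hv.2
  rw [hsum _ (fun v hv7 hv9 => by
    rw [co_GG, if_neg (fun hh => by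
      rcases hh.2.1 with h | h
      · exact hv7 h
      · exact hv9 h), mul_zero])]
  by_cases hs : s = 2
  · have hw : w = 11 ∨ w = 12 := by
      have h0 : ∀ w : Q16, inL 2 w → gr w = 2 + 1 → w = 11 ∨ w = 12 := by decide
      exact h0 w (hs ▸ h1) h2
    rcases hw with rfl | rfl
    · have h4 : u ≤ 7 := h3.trans (by decide)
      have h5 : u ≤ 9 := h3.trans (by decide)
      have d1 : dl 7 11 = 1 := by decide
      have d2 : dl 9 11 = -1 := by decide
      rw [co_GG, co_GG, if_pos ⟨hs, Or.inl rfl, h4⟩, if_pos ⟨hs, Or.inr rfl, h5⟩, d1, d2]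
      push_cast
      ring
    · have d1 : dl 7 12 = 0 := by decide
      have d2 : dl 9 12 = 0 := by decide
      rw [d1, d2]
      simp
  · rw [co_GG, co_GG, if_neg (fun hh => hs hh.1), if_neg (fun hh => hs hh.1)]
    simp

lemma GG_ne (φ : II K 1 →ₗ[RQ K] II K 1) (h : dd 1 ∘ₗ φ = GG) : False := by
  let t₀ : TT 1 := ⟨(0, 1), by decide⟩
  let m₀ : II K 1 := Pi.single t₀ (CI.mk (fun u => if u = 15 then 1 else 0))
  have hm0 : ∀ s v u, co m₀ s v u = if s = 0 ∧ v = 1 then (if u ≤ 1 then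
      (if u = 15 then 1 else 0) else 0) else 0 := by
    intro s v u
    exact co_single t₀ _ s v u
  have hE : ∀ v : Q16, ¬ v ≤ 1 → (15 : Q16) ≤ v → (E 15 v : RQ K) • m₀ = 0 := by
    intro v h1 h2
    apply co_ext
    intro s' v' u' _ _ _
    rw [co_zero, co_E_smul _ _ h2]
    by_cases h3 : u' = v ∧ v ≤ v'
    · rw [if_pos h3, hm0]
      by_cases h4 : s' = 0 ∧ v' = 1
      · exact absurd (h4.2 ▸ h3.2) h1
      · rw [if_neg h4]
    · rw [if_neg h3]
  have hz : ∀ v : Q16, ¬ v ≤ 1 → (15 : Q16) ≤ v → co (φ m₀) 2 v 15 = 0 := by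
    intro v h1 h2
    by_cases h3 : inL 2 v ∧ gr v = 1 ∧ (15 : Q16) ≤ v
    · have h4 : co ((E 15 v : RQ K) • φ m₀) 2 v v = co (φ m₀) 2 v 15 := by
        rw [co_E_smul _ _ h2, if_pos ⟨rfl, le_rfl⟩]
      rw [← h4, ← map_smul, hE v h1 h2, map_zero, co_zero]
    · exact co_eq_zero _ _ _ _ h3
  have hall : ∀ v : Q16, (15 : Q16) ≤ v := by decide
  have hsum : ∀ w : Q16, (w = 7 ∨ w = 8) → co (dd 1 (φ m₀)) 2 w 15 = co (φ m₀) 2 1 15 := by
    intro w hw
    have hw1 : inL 2 w ∧ gr w = 1 + 1 ∧ (15 : Q16) ≤ w := by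
      rcases hw with rfl | rfl
      · decide
      · decide
    rw [co_dd, if_pos hw1, Finset.sum_eq_single (1 : Q16)]
    · have : dl 1 w = 1 := by
        rcases hw with rfl | rfl
        · decide
        · decide
      rw [this]; simp
    · intro v _ hv
      by_cases h3 : v ≤ 1
      · have : dl v w = 0 ∨ co (φ m₀) 2 v 15 = 0 := by
          right
          have h4 : ∀ v : Q16, v ≤ 1 → gr v = 1 → inL 2 v → v = 1 := by decide
          exact co_eq_zero _ _ _ _ (fun hh => hv (h4 v h3 hh.2.1 hh.1))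
        rcases this with h | h
        · rw [h]; simp
        · rw [h, mul_zero]
      · rw [hz v h3 (hall v), mul_zero]
    · intro h; exact absurd (Finset.mem_univ _) h
  have h7 : co (GG m₀) 2 7 15 = 1 := by
    rw [co_GG, if_pos (by decide), hm0]
    rw [if_pos ⟨rfl, rfl⟩, if_pos (by decide), if_pos rfl]
  have h8 : co (GG m₀) 2 8 15 = 0 := by
    rw [co_GG, if_neg (by decide)]
  rw [← h, LinearMap.comp_apply] at h7 h8
  rw [hsum 7 (Or.inl rfl)] at h7
  rw [hsum 8 (Or.inr rfl), h7] at h8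
  exact one_ne_zero h8

theorem not_AR : ¬ HasProjectiveDimensionLE ((CC K).I 1) 1 := by
  intro h
  obtain ⟨e, he⟩ := (CC K).ext_nontrivial' 1 ((CC K).I 1) (ModuleCat.ofHom (GG (K := K)))
    (by
      ext1
      ext1 x
      exact dd_GG x)
    (by
      intro φ hφ
      exact GG_ne φ.hom (congrArg ModuleCat.Hom.hom hφ))
  exact he (Ext.eq_zero_of_hasProjectiveDimensionLT e 2 le_rfl)

end AusPure
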